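import Mathlib
import Pool.Agent.Q176.Debreu

namespace Pool.Agent.Results.MP_67ce71_gt.HCRPnotSRP

open Set Filter Topology Ordinal Cardinal TopologicalSpace

/-- Total preorders: reflexive, transitive and complete relations. -/
def TotalPreorder {X : Type} (R : X → X → Prop) : Prop :=
  (∀ x, R x x) ∧ (∀ x y z, R x y → R y z → R x z) ∧ (∀ x y, R x y ∨ R y x)

/-- The set of points strictly above `x`. -/
def above {X : Type} (R : X → X → Prop) (x : X) : Set X := {y | R x y ∧ ¬ R y x}

/-- The set of points strictly below `x`. -/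
def below {X : Type} (R : X → X → Prop) (x : X) : Set X := {y | R y x ∧ ¬ R x y}

/-- `u` is a utility representation of `R`. -/
def IsUtility {X : Type} (R : X → X → Prop) (u : X → ℝ) : Prop := ∀ x y, R x y ↔ u x ≤ u y

/-- Semicontinuous representability property. -/
def SRP (X : Type) [TopologicalSpace X] : Prop :=
  (∀ R : X → X → Prop, TotalPreorder R → (∀ x, IsOpen (above R x)) →
    ∃ u : X → ℝ, (∀ a : ℝ, IsOpen {x | a < u x}) ∧ IsUtility R u) ∧
  (∀ R : X → X → Prop, TotalPreorder R → (∀ x, IsOpen (below R x)) →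
    ∃ u : X → ℝ, (∀ a : ℝ, IsOpen {x | u x < a}) ∧ IsUtility R u)

/-- Continuous representability property. -/
def CRP (X : Type) [TopologicalSpace X] : Prop :=
  ∀ R : X → X → Prop, TotalPreorder R → (∀ x, IsOpen (above R x)) → (∀ x, IsOpen (below R x)) →
    ∃ u : X → ℝ, Continuous u ∧ IsUtility R u

/-- Hereditary continuous representability property. -/
def HCRP (X : Type) [TopologicalSpace X] : Prop := ∀ Y : Set X, Y.Nonempty → CRP Y

section general

lemma unc_fiber {α β : Type*} [Countable β] {S : Set α} (hS : ¬ S.Countable) (f : α → β) :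
    ∃ b, ¬ (S ∩ f ⁻¹' {b}).Countable := by
  by_contra hc
  push Not at hc
  apply hS
  have : S = ⋃ b, S ∩ f ⁻¹' {b} := by
    ext w; simp
  rw [this]
  exact countable_iUnion hc

variable {W : Type} [LinearOrder W] (hW : ∀ w : W, (Iic w).Countable)

include hW in
lemma unbdd {S : Set W} (hS : ¬ S.Countable) (w : W) : ∃ j ∈ S, w < j := by
  by_contra hc
  push Not at hc
  exact hS ((hW w).mono hc)

/-- The abstract form: spaces whose points have an injective index with countable initial
segments, and whose neighbourhoods are traces of members of a countable family on final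
segments of indices, have CRP. -/
theorem crp_of_index {Y : Type} [TopologicalSpace Y] (idx : Y → W) (hidx : Function.Injective idx)
    {N : Type} [Countable N] (J : N → Set Y) [Uncountable W]
    (hW : ∀ w : W, (Iic w).Countable)
    (hJ : ∀ V : Set Y, IsOpen V → ∀ x ∈ V, ∃ n, x ∈ J n ∧ ∀ y ∈ J n, idx x ≤ idx y → y ∈ V) :
    CRP Y := by
  intro R hR hU hL
  by_cases hD : ∃ D : Set Y, D.Countable ∧ ∀ x y, R x y → ¬ R y x → ∃ d ∈ D, R x d ∧ R d y
  · obtain ⟨D, hD1, hD2⟩ := hD
    exact Q176.Debreu.debreu R hR hU hL D hD1 hD2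
  · exfalso
    push Not at hD
    have htot := hR.2.2
    have htrans := hR.2.1
    have h1 : ∀ w : W, ∃ x y : Y, R x y ∧ ¬ R y x ∧ ∀ d, idx d ≤ w → R x d → ¬ R d y := by
      intro w
      have hc : (idx ⁻¹' Iic w).Countable := (hW w).preimage hidx
      obtain ⟨x, y, h1, h2, h3⟩ := hD _ hc
      exact ⟨x, y, h1, h2, fun d hd => h3 d hd⟩
    choose x y hxy hyx hd using h1
    have hn : ∀ w, ∃ n, x w ∈ J n ∧ ∀ z ∈ J n, idx (x w) ≤ idx z → z ∈ below R (y w) :=
      fun w => hJ _ (hL (y w)) (x w) ⟨hxy w, hyx w⟩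
    have hm : ∀ w, ∃ n, y w ∈ J n ∧ ∀ z ∈ J n, idx (y w) ≤ idx z → z ∈ above R (x w) :=
      fun w => hJ _ (hU (x w)) (y w) ⟨hxy w, hyx w⟩
    choose n hn1 hn2 using hn
    choose m hm1 hm2 using hm
    have hxi : ∀ w, w < idx (x w) := by
      intro w
      by_contra hc
      exact hd w (x w) (not_lt.mp hc) (hR.1 _) (hxy w)
    have hyi : ∀ w, w < idx (y w) := by
      intro w
      by_contra hc
      exact hd w (y w) (not_lt.mp hc) (hxy w) (hR.1 _)
    obtain ⟨⟨n0, m0⟩, hS⟩ := unc_fiber (S := (univ : Set W)) not_countable_univ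
      (fun w => (n w, m w))
    set S : Set W := univ ∩ (fun w => (n w, m w)) ⁻¹' {(n0, m0)} with hSdef
    have hSn : ∀ w ∈ S, n w = n0 := fun w hw => congrArg Prod.fst hw.2
    have hSm : ∀ w ∈ S, m w = m0 := fun w hw => congrArg Prod.snd hw.2
    -- nesting
    have nest : ∀ i ∈ S, ∀ j ∈ S, idx (x i) ≤ j → idx (y i) ≤ j →
        (R (x i) (x j) ∧ ¬ R (x j) (x i)) := by
      intro i hi j hj hxj hyj
      have h2 : x j ∈ below R (y i) := by
        apply hn2 i
        · rw [hSn i hi, ← hSn j hj]; exact hn1 j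
        · exact hxj.trans (hxi j).le
      have h3 : y j ∈ above R (x i) := by
        apply hm2 i
        · rw [hSm i hi, ← hSm j hj]; exact hm1 j
        · exact hyj.trans (hyi j).le
      -- x i is not in the interval [x j, y j], and x i is below y j
      have h4 : ¬ R (x j) (x i) := by
        intro hc
        exact hd j (x i) hxj hc h3.1
      exact ⟨(htot (x i) (x j)).resolve_right h4, h4⟩
    -- second pigeonhole
    have hs : ∀ i : S, ∃ j ∈ S, idx (x i) ≤ j ∧ idx (y i) ≤ j := by
      intro i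
      obtain ⟨j, hj, hlt⟩ := unbdd hW hS (max (idx (x i)) (idx (y i)))
      exact ⟨j, hj, (le_max_left _ _).trans hlt.le, (le_max_right _ _).trans hlt.le⟩
    choose s hs1 hs2 hs3 using hs
    have hk : ∀ i : S, ∃ k, x i ∈ J k ∧ ∀ z ∈ J k, idx (x i) ≤ idx z → z ∈ below R (x (s i)) :=
      fun i => hJ _ (hL (x (s i))) (x i) (nest i i.2 (s i) (hs1 i) (hs2 i) (hs3 i))
    choose k hk1 hk2 using hk
    have hSunc : ¬ (univ : Set S).Countable := by
      rw [countable_univ_iff]
      exact fun hc => hS (Set.countable_coe_iff.mp hc)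
    obtain ⟨k0, hS'⟩ := unc_fiber hSunc k
    have hS'' : ¬ (Subtype.val '' (univ ∩ k ⁻¹' {k0})).Countable := by
      intro hc
      apply hS'
      exact Set.countable_of_injective_of_countable_image Subtype.val_injective.injOn hc
    have hne : (Set.univ ∩ k ⁻¹' {k0}).Nonempty := by
      by_contra hc
      rw [not_nonempty_iff_eq_empty] at hc
      exact hS' (hc ▸ countable_empty)
    obtain ⟨i, hi⟩ := hne
    obtain ⟨_, ⟨j, hj, rfl⟩, hlt⟩ := unbdd hW hS''
      (max (max (idx (x (s i))) (idx (y (s i)))) (idx (x i)))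
    have h5 := nest (s i) (hs1 i) j j.2
      ((le_max_left _ _).trans ((le_max_left _ _).trans hlt.le))
      ((le_max_right _ _).trans ((le_max_left _ _).trans hlt.le))
    have hki : k i = k0 := hi.2
    have hkj : k j = k0 := hj.2
    have h6 : x j ∈ below R (x (s i)) := by
      apply hk2 i
      · rw [hki, ← hkj]; exact hk1 j
      · exact ((le_max_right _ _).trans hlt.le).trans (hxi j).le
    exact h5.2 h6.1

end general

/-- A well ordered set of order type `ω₁`. -/
abbrev W : Type := (ω₁ : Ordinal.{0}).ToType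

lemma mk_W : #W = ℵ₁ := by rw [Cardinal.mk_toType, card_omega]

instance : Uncountable W := by
  rw [← Cardinal.aleph0_lt_mk_iff, mk_W]
  exact aleph0_lt_aleph_one

lemma Iic_countable (w : W) : (Iic w).Countable := by
  have h1 : (Iio w).Countable := by
    rw [← Cardinal.le_aleph0_iff_set_countable]
    have h2 : #(Iio w) < ℵ₁ := by
      have := mk_Iio_lt w (by rw [mk_W, ord_aleph, Ordinal.type_toType])
      rwa [mk_W] at this
    rw [← succ_aleph0, Order.lt_succ_iff] at h2
    exact h2
  have : Iic w = insert w (Iio w) := by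
    ext z; simp [le_iff_eq_or_lt]
  rw [this]
  exact h1.insert w

lemma exists_code : ∃ c : W → (ℕ → Bool), Function.Injective c := by
  have h1 : #W ≤ #(ℕ → Bool) := by
    rw [mk_W]
    have : #(ℕ → Bool) = 𝔠 := by simp
    rw [this]
    exact aleph_one_le_continuum
  obtain ⟨e⟩ := h1
  exact ⟨e, e.injective⟩

/-- Codes of points in the Cantor set. -/
noncomputable def code : W → (ℕ → Bool) := exists_code.choose

lemma code_injective : Function.Injective code := exists_code.choose_spec

/-- The basic sets. -/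
def B (x : W) (k : ℕ) : Set W := {y | x ≤ y ∧ ∀ i < k, code y i = code x i}

/-- The base. -/
def Base : Set (Set W) := {A | ∃ x k, A = B x k}

lemma mem_B_self (x : W) (k : ℕ) : x ∈ B x k := ⟨le_rfl, fun _ _ => rfl⟩

lemma B_subset {x y : W} {k m : ℕ} (h : y ∈ B x k) (hkm : k ≤ m) : B y m ⊆ B x k := by
  rintro z ⟨h1, h2⟩
  exact ⟨h.1.trans h1, fun i hi => (h2 i (by omega)).trans (h.2 i hi)⟩

@[instance_reducible] def top : TopologicalSpace W := generateFrom Base

lemma base_isBasis : @IsTopologicalBasis W top Base := by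
  refine @IsTopologicalBasis.mk W top Base ?_ ?_ rfl
  · rintro _ ⟨x, k, rfl⟩ _ ⟨x', k', rfl⟩ y ⟨hy, hy'⟩
    exact ⟨B y (max k k'), ⟨y, _, rfl⟩, mem_B_self _ _,
      subset_inter (B_subset hy (le_max_left _ _)) (B_subset hy' (le_max_right _ _))⟩
  · rw [eq_univ_iff_forall]
    intro x
    exact ⟨B x 0, ⟨x, 0, rfl⟩, mem_B_self _ _⟩

lemma t2 : @T2Space W top := by
  refine @T2Space.mk W top ?_
  intro x y hxy
  have h1 : code x ≠ code y := fun h => hxy (code_injective h)
  obtain ⟨i, hi⟩ := Function.ne_iff.mp h1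
  refine ⟨B x (i + 1), B y (i + 1), isOpen_generateFrom_of_mem ⟨x, _, rfl⟩,
    isOpen_generateFrom_of_mem ⟨y, _, rfl⟩, mem_B_self _ _, mem_B_self _ _, ?_⟩
  rw [Set.disjoint_left]
  intro z hz hz'
  exact hi ((hz.2 i (by omega)).symm.trans (hz'.2 i (by omega)))

lemma exists_B_subset {V : Set W} (hV : IsOpen[top] V) {x : W} (hx : x ∈ V) :
    ∃ k, B x k ⊆ V := by
  obtain ⟨A, ⟨z, k, rfl⟩, hxA, hAV⟩ :=
    @IsTopologicalBasis.exists_subset_of_mem_open W top Base base_isBasis x V hx hV
  exact ⟨k, (B_subset hxA le_rfl).trans hAV⟩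

theorem hcrp : @HCRP W top := by
  letI := top
  intro Y _
  apply crp_of_index (W := W) (fun y : Y => (y : W)) Subtype.val_injective
    (N := Σ m : ℕ, (Fin m → Bool)) (fun p => {y : Y | ∀ i : Fin p.1, code y i = p.2 i})
    Iic_countable
  intro V hV x hx
  obtain ⟨V', hV', rfl⟩ := isOpen_induced_iff.mp hV
  obtain ⟨k, hk⟩ := exists_B_subset hV' hx
  refine ⟨⟨k, fun i => code x i⟩, fun i => rfl, ?_⟩
  intro y hy hxy
  exact hk ⟨hxy, fun i hi => hy ⟨i, hi⟩⟩

theorem not_srp : ¬ @SRP W top := by
  letI := top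
  rintro ⟨h, _⟩
  have hR : TotalPreorder (fun x y : W => x ≤ y) := ⟨le_refl, fun _ _ _ => le_trans, le_total⟩
  obtain ⟨u, _, hu⟩ := h (fun x y : W => x ≤ y) hR (by
    intro x
    have : IsOpen (⋃ y ∈ Ioi x, B y 0) :=
      isOpen_biUnion fun y _ => isOpen_generateFrom_of_mem ⟨y, 0, rfl⟩
    convert this using 1
    ext z
    simp only [above, mem_iUnion, mem_Ioi]
    constructor
    · rintro ⟨_, h2⟩
      exact ⟨z, not_le.mp h2, mem_B_self _ _⟩
    · rintro ⟨y, hy, hz⟩
      have : x < z := lt_of_lt_of_le hy hz.1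
      exact ⟨this.le, not_le.mpr this⟩)
  have hmono : ∀ x y : W, x < y → u x < u y := by
    intro x y hxy
    by_contra hc
    exact absurd ((hu y x).mpr (not_lt.mp hc)) (not_le.mpr hxy)
  have hsucc : ∀ x : W, ∃ y, x < y ∧ ∀ z, x < z → y ≤ z := by
    intro x
    have hne : (Ioi x).Nonempty := by
      by_contra hc
      rw [not_nonempty_iff_eq_empty] at hc
      have : (univ : Set W) ⊆ Iic x := by
        intro z _
        by_contra hz
        have hz' : x < z := not_le.mp hz
        have : z ∈ Ioi x := hz'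
        rw [hc] at this
        exact this
      exact not_countable_univ ((Iic_countable x).mono this)
    refine ⟨WellFounded.min (wellFounded_lt (α := W)) (Ioi x) hne,
      WellFounded.min_mem _ _ hne, fun z hz => ?_⟩
    exact not_lt.mp (WellFounded.not_lt_min _ _ hz)
  choose s hs1 hs2 using hsucc
  choose r hr1 hr2 using fun x : W => exists_rat_btwn (hmono x (s x) (hs1 x))
  have hinj : Function.Injective r := by
    have hlt : ∀ x y : W, x < y → r x < r y := by
      intro x y hxy
      have h1 : u (s x) ≤ u y := (hu _ _).mp (hs2 x y hxy)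
      have : (r x : ℝ) < r y := (hr2 x).trans (h1.trans_lt (hr1 y))
      exact_mod_cast this
    have hsm : StrictMono r := fun a b h => hlt a b h
    exact hsm.injective
  have : Countable W := hinj.countable
  exact not_countable (α := W) this

/-- There is a Hausdorff space with HCRP which fails SRP. -/
theorem result : ∃ (X : Type) (_ : TopologicalSpace X), T2Space X ∧ HCRP X ∧ ¬ SRP X :=
  ⟨W, top, t2, hcrp, not_srp⟩

end Pool.Agent.Results.MP_67ce71_gt.HCRPnotSRP
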